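import Pool.Agent.H956R3.Omega

/-!
# Every `ℵ₀`-stable continuous theory has enough d-definable sets

In a model of an `ℵ₀`-stable theory, all but countably many sublevel sets `{φ ≤ t}` of a formula
with parameters are d-definable.  The definitions are in `Pool/Agent/H956R3/Defs.lean`.
-/

set_option autoImplicit false

namespace Pool.Agent.Results.MP_cc3859_lc.OmegaStableEnough

open Pool.Agent.H956R3.CL

universe u

/-- Every `ℵ₀`-stable continuous theory has enough d-definable sets (and the d-definable sets can be
taken nonempty). -/
theorem result (L : Sig.{u}) (T : Thy L) (hT : AlephZeroStable T) :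
    Enough T ∧ EnoughNonempty T := by
  have h : EnoughNonempty T := fun M _ _ hM A n p hp => enough_of_aleph0_stable T hT hM A n p hp
  refine ⟨fun M _ _ hM A n p hp => ?_, h⟩
  obtain ⟨𝒟, h1, h2⟩ := h M hM A n p hp
  exact ⟨𝒟, fun D hD => (h1 D hD).2, h2⟩

end Pool.Agent.Results.MP_cc3859_lc.OmegaStableEnough
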