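import Pool.Agent.H956R3.Gen2

/-!
# A stable continuous theory without enough d-definable sets

`T` is the theory of an infinite set with the discrete metric and a generic `[0,1]`-valued unary
predicate.  The definitions are in `Pool/Agent/H956R3/Defs.lean`.
-/

set_option autoImplicit false

namespace Pool.Agent.Results.MP_cc3859_lc.StableNotEnough

open Pool.Agent.H956R3.CL

/-- Some satisfiable complete stable continuous theory does not have enough d-definable sets. -/
theorem result : ∃ (L : Sig.{0}) (T : Thy L),
    Satisfiable T ∧ Complete T ∧ Stable T ∧ ¬ Enough T :=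
  ⟨L1, T1, ⟨Pt, inferInstance, inferInstance, fun _ h => h⟩,
    fun M N _ _ _ _ hM hN φ => complete_T1 M N hM hN φ,
    ⟨Cardinal.continuum, Cardinal.aleph0_le_continuum, kstable_T1⟩, not_enough_T1⟩

end Pool.Agent.Results.MP_cc3859_lc.StableNotEnough
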